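import Pool.Agent.L7h58.MW.TI
import Pool.Agent.Y957.VK.Fin3

/-! # Project MW, part LL: local mean squares of `Λ - 1` -/

set_option autoImplicit false

namespace Pool.Agent.L7h58.MW

open Finset MeasureTheory Filter Topology
open Pool.Agent.H376R2.MR (er)
open Pool.Agent.L7h88.MW
open Pool.Agent.Y957.VK (lamw)

theorem cont_DS (f : ℕ → ℂ) (s : Finset ℕ) : Continuous fun η : ℝ => DS f s η := by
  unfold DS er
  fun_prop

theorem cont_DS2 (f : ℕ → ℂ) (s : Finset ℕ) : Continuous fun η : ℝ => ‖DS f s η‖ ^ 2 :=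
  (cont_DS f s).norm.pow 2

/-- the integral of `η⁻²` away from zero -/
theorem int_inv_sq {a M T : ℝ} (hT : 0 < T) (hM : 0 ≤ M) (h : ∀ η ∈ Set.Icc a (a + M), T ≤ |η|) :
    IntervalIntegrable (fun η : ℝ => 1 / η ^ 2) volume a (a + M) ∧ ∫ η in a..(a + M), 1 / η ^ 2 ≤ 1 / T := by
  have hab : a ≤ a + M := by linarith
  have hne : ∀ η ∈ Set.uIcc a (a + M), η ≠ 0 := by
    intro η hη h0
    rw [Set.uIcc_of_le hab] at hη
    have := h η hη
    rw [h0, abs_zero] at this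
    linarith
  have hint : IntervalIntegrable (fun η : ℝ => 1 / η ^ 2) volume a (a + M) := by
    apply ContinuousOn.intervalIntegrable
    apply ContinuousOn.div continuousOn_const (by fun_prop)
    intro η hη
    exact pow_ne_zero 2 (hne η hη)
  refine ⟨hint, ?_⟩
  have hd : ∀ η ∈ Set.uIcc a (a + M), HasDerivAt (fun η : ℝ => -η⁻¹) (1 / η ^ 2) η := by
    intro η hη
    have h1 := (hasDerivAt_inv (hne η hη)).neg
    have e : 1 / η ^ 2 = - -(η ^ 2)⁻¹ := by rw [neg_neg, one_div]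
    rw [e]
    exact h1
  rw [intervalIntegral.integral_eq_sub_of_hasDerivAt hd hint]
  have ha := h a ⟨le_rfl, hab⟩
  have hb := h (a + M) ⟨hab, le_rfl⟩
  rcases lt_trichotomy a 0 with h1 | h1 | h1
  · have h2 : a + M < 0 := by
      by_contra hc
      push Not at hc
      have := h 0 ⟨h1.le, hc⟩
      rw [abs_zero] at this
      linarith
    rw [abs_of_neg h2] at hb
    have h3 : -(a + M)⁻¹ = 1 / (-(a + M)) := by
      rw [one_div, inv_neg]
    have h4 : 1 / (-(a + M)) ≤ 1 / T := one_div_le_one_div_of_le hT hb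
    have h5 : a⁻¹ < 0 := inv_lt_zero.2 h1
    rw [h3]
    linarith
  · rw [h1, abs_zero] at ha
    linarith
  · rw [abs_of_pos h1] at ha
    have h4 : 1 / a ≤ 1 / T := one_div_le_one_div_of_le hT ha
    have h5 : 0 < (a + M)⁻¹ := inv_pos.2 (by linarith)
    rw [one_div a] at h4
    linarith

/-- the square of a bound `R (N/|η| + E)` -/
theorem int_bd {g : ℝ → ℝ} (hg : Continuous g) {a M T P Q : ℝ} (hT : 0 < T) (hM : 0 ≤ M) (hP : 0 ≤ P)
    (h : ∀ η ∈ Set.Icc a (a + M), T ≤ |η|) (hb : ∀ η ∈ Set.Icc a (a + M), g η ≤ P * (1 / η ^ 2) + Q) :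
    ∫ η in a..(a + M), g η ≤ P / T + Q * M := by
  have hab : a ≤ a + M := by linarith
  obtain ⟨h1, h2⟩ := int_inv_sq hT hM h
  have h3 : ∫ η in a..(a + M), g η ≤ ∫ η in a..(a + M), (P * (1 / η ^ 2) + Q) :=
    intervalIntegral.integral_mono_on hab (hg.intervalIntegrable _ _)
      ((h1.const_mul P).add (intervalIntegrable_const)) hb
  refine h3.trans ?_
  rw [intervalIntegral.integral_add (h1.const_mul P) intervalIntegrable_const,
    intervalIntegral.integral_const_mul, intervalIntegral.integral_const]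
  have h4 : P * ∫ η in a..(a + M), 1 / η ^ 2 ≤ P * (1 / T) := mul_le_mul_of_nonneg_left h2 hP
  rw [smul_eq_mul]
  have h5 : P * (1 / T) = P / T := by ring
  rw [h5] at h4
  linarith

/-- cutting out the low frequencies -/
theorem cut3 {g : ℝ → ℝ} (hg : Continuous g) (hg0 : ∀ η, 0 ≤ g η) {x L T S R B : ℝ} (hT : 0 ≤ T) (hL : 0 ≤ L) (hB : 0 ≤ B)
    (hlow : ∀ η, |η| ≤ T → g η ≤ S)
    (hrest : ∀ a M : ℝ, 0 ≤ M → M ≤ L → (∀ η ∈ Set.Icc a (a + M), T ≤ |η| ∧ |η| ≤ R) →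
      ∫ η in a..(a + M), g η ≤ B) (hR : ∀ η ∈ Set.Icc x (x + L), |η| ≤ R) :
    ∫ η in x..(x + L), g η ≤ 2 * T * S + 2 * B := by
  have hi : ∀ a b : ℝ, IntervalIntegrable g volume a b := fun a b => hg.intervalIntegrable a b
  have hS : 0 ≤ S := (hg0 0).trans (hlow 0 (by rw [abs_zero]; exact hT))
  -- the points of division
  obtain ⟨p, hp⟩ : ∃ p : ℝ, p = max x (min (x + L) (-T)) := ⟨_, rfl⟩
  obtain ⟨q, hq⟩ : ∃ q : ℝ, q = max p (min (x + L) T) := ⟨_, rfl⟩
  have hpx : x ≤ p := by rw [hp]; exact le_max_left _ _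
  have hpL : p ≤ x + L := by rw [hp]; exact max_le (by linarith) (min_le_left _ _)
  have hqp : p ≤ q := by rw [hq]; exact le_max_left _ _
  have hqL : q ≤ x + L := by rw [hq]; exact max_le hpL (min_le_left _ _)
  rw [← intervalIntegral.integral_add_adjacent_intervals (hi x p) (hi p (x + L)),
    ← intervalIntegral.integral_add_adjacent_intervals (hi p q) (hi q (x + L))]
  have h1 : ∫ η in x..p, g η ≤ B := by
    rcases hpx.eq_or_lt with h | h
    · rw [← h, intervalIntegral.integral_same]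
      exact hB
    · have h2 : p = min (x + L) (-T) := by
        rw [hp]
        apply max_eq_right
        by_contra hc
        push Not at hc
        rw [hp, max_eq_left hc.le] at h
        exact lt_irrefl _ h
      have h3 : p ≤ -T := h2.le.trans (min_le_right _ _)
      have h4 := hrest x (p - x) (by linarith) (by linarith) (by
        intro η hη
        have h5 : η ≤ p := by linarith [hη.2]
        refine ⟨?_, hR η ⟨hη.1, by linarith⟩⟩
        rw [abs_of_nonpos (by linarith)]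
        linarith)
      have e : x + (p - x) = p := by ring
      rw [e] at h4
      exact h4
  have h3 : ∫ η in q..(x + L), g η ≤ B := by
    rcases hqL.eq_or_lt with h | h
    · rw [h, intervalIntegral.integral_same]
      exact hB
    · have h2 : T ≤ q := by
        by_contra hc
        push Not at hc
        have h5 : min (x + L) T ≤ q := by rw [hq]; exact le_max_right _ _
        rcases min_le_iff.1 h5 with h6 | h6 <;> linarith
      have h4 := hrest q (x + L - q) (by linarith) (by linarith) (by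
        intro η hη
        refine ⟨?_, hR η ⟨by linarith [hη.1], by linarith [hη.2]⟩⟩
        rw [abs_of_nonneg (by linarith [hη.1])]
        linarith [hη.1])
      have e : q + (x + L - q) = x + L := by ring
      rw [e] at h4
      exact h4
  have h2 : ∫ η in p..q, g η ≤ 2 * T * S := by
    rcases hqp.eq_or_lt with h | h
    · rw [← h, intervalIntegral.integral_same]
      positivity
    · have h5 : q = min (x + L) T := by
        rw [hq]
        apply max_eq_right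
        by_contra hc
        push Not at hc
        rw [hq, max_eq_left hc.le] at h
        exact lt_irrefl _ h
      have h6 : q ≤ T := h5.le.trans (min_le_right _ _)
      have h7 : -T ≤ p := by
        by_contra hc
        push Not at hc
        have h8 : min (x + L) (-T) ≤ p := by rw [hp]; exact le_max_right _ _
        rcases min_le_iff.1 h8 with h9 | h9 <;> linarith
      have h8 : ∫ η in p..q, g η ≤ ∫ η in p..q, S :=
        intervalIntegral.integral_mono_on hqp (hi p q) intervalIntegrable_const (by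
          intro η hη
          exact hlow η (abs_le.2 ⟨by linarith [hη.1], by linarith [hη.2]⟩))
      rw [intervalIntegral.integral_const, smul_eq_mul] at h8
      have : (q - p) * S ≤ 2 * T * S := mul_le_mul_of_nonneg_right (by linarith) hS
      linarith
  linarith

theorem ev_log (K : ℕ) {ε : ℝ} (hε : 0 < ε) : ∃ n0 : ℕ, ∀ N : ℕ, n0 ≤ N → Real.log N ^ K ≤ (N : ℝ) ^ ε := by
  have h := (isLittleO_log_rpow_rpow_atTop (K : ℝ) hε).bound (show (0 : ℝ) < 1 by norm_num)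
  have h2 := (tendsto_natCast_atTop_atTop (R := ℝ)).eventually (h.and (eventually_ge_atTop (1 : ℝ)))
  obtain ⟨n0, hn0⟩ := eventually_atTop.1 h2
  refine ⟨n0, fun N hN => ?_⟩
  obtain ⟨h3, h4⟩ := hn0 N hN
  rw [one_mul, Real.rpow_natCast, Real.norm_eq_abs, Real.norm_eq_abs,
    abs_of_nonneg (pow_nonneg (Real.log_nonneg h4) K), abs_of_nonneg (by positivity)] at h3
  exact h3

theorem sq4 (u v w z : ℂ) : ‖u - v + w - z‖ ^ 2 ≤ 4 * (‖u‖ ^ 2 + ‖v‖ ^ 2 + ‖w‖ ^ 2 + ‖z‖ ^ 2) := by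
  have h1 : ‖u - v + w - z‖ ≤ ‖u‖ + ‖v‖ + ‖w‖ + ‖z‖ := by
    refine (norm_sub_le _ _).trans ?_
    have h2 := norm_add_le (u - v) w
    have h3 := norm_sub_le u v
    linarith
  have h0 := norm_nonneg (u - v + w - z)
  calc ‖u - v + w - z‖ ^ 2 ≤ (‖u‖ + ‖v‖ + ‖w‖ + ‖z‖) ^ 2 := by gcongr
    _ ≤ _ := by
      nlinarith [sq_nonneg (‖u‖ - ‖v‖), sq_nonneg (‖u‖ - ‖w‖), sq_nonneg (‖u‖ - ‖z‖), sq_nonneg (‖v‖ - ‖w‖),
        sq_nonneg (‖v‖ - ‖z‖), sq_nonneg (‖w‖ - ‖z‖)]

theorem lam_low (A : ℕ) : ∃ E : ℝ, 0 ≤ E ∧ ∀ (N N1 N2 : ℕ) (η : ℝ), 8 ≤ N → N ≤ N1 → N1 ≤ N2 → N2 ≤ 16 * N →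
    |η| ≤ N → ‖DS lamw (Ioc N1 N2) η‖ ≤ E * N / Real.log N ^ A := by
  obtain ⟨C, hC⟩ := Pool.Agent.Y957.VK.lw_all.2.2 1 A
  refine ⟨32 * |C|, by positivity, fun N N1 N2 η hN hN1 hN12 hN2 hη => ?_⟩
  have hNR : (8 : ℝ) ≤ N := by exact_mod_cast hN
  have hl0 : 0 < Real.log N := Real.log_pos (by linarith)
  have key : ∀ M : ℕ, N ≤ M → M ≤ 16 * N → ‖∑ n ∈ Icc 1 M, lamw n * er (-η) (Real.log n)‖ ≤
      16 * |C| * N / Real.log N ^ A := by
    intro M h1 h2
    have h1R : (N : ℝ) ≤ M := by exact_mod_cast h1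
    have h2R : (M : ℝ) ≤ 16 * N := by exact_mod_cast h2
    have h3 := hC M (-η) (by omega) (by rw [abs_neg, pow_one]; linarith)
    refine h3.trans ?_
    have h4 : Real.log N ^ A ≤ Real.log M ^ A :=
      pow_le_pow_left₀ hl0.le (Real.log_le_log (by linarith) h1R) A
    calc C * M / Real.log M ^ A ≤ |C| * (16 * N) / Real.log M ^ A := by
          refine div_le_div_of_nonneg_right ?_ (by positivity)
          exact mul_le_mul (le_abs_self C) h2R (by linarith) (abs_nonneg _)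
      _ ≤ |C| * (16 * N) / Real.log N ^ A := div_le_div_of_nonneg_left (by positivity) (by positivity) h4
      _ = _ := by ring
  have e1 : DS lamw (Ioc N1 N2) η = ∑ n ∈ Icc 1 N2, lamw n * er (-η) (Real.log n) -
      ∑ n ∈ Icc 1 N1, lamw n * er (-η) (Real.log n) := by
    unfold DS
    have h5 : Icc 1 N2 = Icc 1 N1 ∪ Ioc N1 N2 := by
      ext n
      simp only [mem_union, mem_Icc, mem_Ioc]
      omega
    rw [h5, sum_union]
    · ring
    · rw [disjoint_left]
      intro n h6 h7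
      rw [mem_Icc] at h6
      rw [mem_Ioc] at h7
      omega
  rw [e1]
  refine (norm_sub_le _ _).trans ?_
  have h1 := key N2 (by omega) hN2
  have h2 := key N1 hN1 (by omega)
  calc _ ≤ 16 * |C| * N / Real.log N ^ A + 16 * |C| * N / Real.log N ^ A := add_le_add h1 h2
    _ = _ := by ring

theorem s_LL (hTI : S_TI) (hTII : S_TII) (hV : S_VAU) (hZ : S_ZS) : S_LL := by
  intro A C
  obtain ⟨D3, K, n3, hD3, h3⟩ := hTII A (C + 1)
  obtain ⟨D1, K1, n1, hD1, h1⟩ := hTI (C + 1)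
  obtain ⟨C0, hC0, hZS⟩ := hZ
  obtain ⟨K2, hK2⟩ : ∃ K2, K2 = K + 2 * K1 + A + 4 := ⟨_, rfl⟩
  obtain ⟨E, hE0, hE⟩ := lam_low (A + K2)
  obtain ⟨m1, hm1⟩ := ev_log K2 (show (0 : ℝ) < 1 by norm_num)
  obtain ⟨m2, hm2⟩ := ev_log (2 * K1 + C + A) (show (0 : ℝ) < 0.2 by norm_num)
  obtain ⟨m3, hm3⟩ := ev_log (2 * C + 3 + A) (show (0 : ℝ) < 0.5 by norm_num)
  refine ⟨2 * E ^ 2 + 2 * (4 * (8 * D1 ^ 2 + D3 + 12850 * C0 ^ 2)), n3 + n1 + m1 + m2 + m3 + 2 ^ 420, by positivity,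
    by norm_num; omega, ?_⟩
  intro N N1 N2 x L hN hN1 hN12 hN2 hL0 hL hx
  have hN420 : 2 ^ 420 ≤ N := by omega
  have h8p : 8 ≤ 2 ^ 420 := by
    have h := Nat.pow_le_pow_right (show 0 < 2 by norm_num) (show 3 ≤ 420 by norm_num)
    have h' : 2 ^ 3 = 8 := by norm_num
    omega
  have hN8 : 8 ≤ N := le_trans h8p hN420
  have hNR : (8 : ℝ) ≤ N := by exact_mod_cast hN8
  have hN0 : (0 : ℝ) < N := by linarith
  obtain ⟨l, hl⟩ : ∃ l, l = Real.log N := ⟨_, rfl⟩
  have hl2 : 2 ≤ l := by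
    rw [hl, Real.le_log_iff_exp_le hN0]
    have h4 : Real.exp 2 = Real.exp 1 * Real.exp 1 := by rw [← Real.exp_add]; norm_num
    have h5 := Real.exp_one_lt_d9
    have h6 := Real.exp_pos 1
    rw [h4]
    nlinarith
  have hl1 : 1 ≤ l := by linarith
  have hl0 : 0 < l := by linarith
  have e1 : l ^ K2 ≤ N := by
    have := hm1 N (by omega)
    rwa [Real.rpow_one, ← hl] at this
  have e2 : l ^ (2 * K1 + C + A) ≤ (N : ℝ) ^ (0.2 : ℝ) := by rw [hl]; exact hm2 N (by omega)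
  have e3 : l ^ (2 * C + 3 + A) ≤ (N : ℝ) ^ (0.5 : ℝ) := by rw [hl]; exact hm3 N (by omega)
  have hsq : √(N : ℝ) = (N : ℝ) ^ (0.5 : ℝ) := by rw [Real.sqrt_eq_rpow]; norm_num
  have hsq0 : 0 ≤ √(N : ℝ) := Real.sqrt_nonneg _
  have hsqN : √(N : ℝ) ≤ N := by
    rw [Real.sqrt_le_left (by linarith)]
    nlinarith
  rw [← hl] at hL hx
  have hlC : 1 ≤ l ^ C := one_le_pow₀ hl1
  have hR : ∀ η ∈ Set.Icc x (x + L), |η| ≤ N * l ^ (C + 1) := by
    intro η hη
    have h4 : |η| ≤ |x| + L := by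
      obtain ⟨h5, h6⟩ := hη
      rw [abs_le]
      have := neg_abs_le x
      have := le_abs_self x
      constructor <;> linarith
    calc |η| ≤ N * l ^ C + √N * l ^ C := h4.trans (add_le_add hx hL)
      _ ≤ N * l ^ C + N * l ^ C := by gcongr
      _ = N * l ^ C * 2 := by ring
      _ ≤ N * l ^ C * l := by gcongr
      _ = N * l ^ (C + 1) := by ring
  -- the parameter V
  obtain ⟨V, hVd⟩ : ∃ V : ℕ, V = ⌊(N : ℝ) ^ (1 / 20 : ℝ)⌋₊ := ⟨_, rfl⟩
  have hV1 : (V : ℝ) ≤ (N : ℝ) ^ (1 / 20 : ℝ) := by rw [hVd]; exact Nat.floor_le (by positivity)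
  have hV2 : (N : ℝ) ^ (1 / 21 : ℝ) ≤ V := by
    obtain ⟨y, hy⟩ : ∃ y : ℝ, y = (N : ℝ) ^ (1 / 420 : ℝ) := ⟨_, rfl⟩
    have hy2 : 2 ≤ y := by
      have h4 : ((2 : ℝ) ^ 420) ^ (1 / 420 : ℝ) ≤ (N : ℝ) ^ (1 / 420 : ℝ) := by
        apply Real.rpow_le_rpow (by positivity) _ (by norm_num)
        exact_mod_cast hN420
      rw [← Real.rpow_natCast, ← Real.rpow_mul (by norm_num)] at h4
      norm_num at h4
      rw [hy]
      exact h4
    have h5 : (N : ℝ) ^ (1 / 20 : ℝ) = y ^ 21 := by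
      rw [hy, ← Real.rpow_natCast, ← Real.rpow_mul hN0.le]
      norm_num
    have h6 : (N : ℝ) ^ (1 / 21 : ℝ) = y ^ 20 := by
      rw [hy, ← Real.rpow_natCast, ← Real.rpow_mul hN0.le]
      norm_num
    have h7 : (N : ℝ) ^ (1 / 20 : ℝ) < V + 1 := by rw [hVd]; exact Nat.lt_floor_add_one _
    rw [h5] at h7
    rw [h6]
    have h8 : 1 ≤ y ^ 20 := one_le_pow₀ (by linarith)
    have h9 : y ^ 21 = y * y ^ 20 := by ring
    nlinarith
  have hV3 : (V : ℝ) ≤ (N : ℝ) ^ (1 / 10 : ℝ) :=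
    hV1.trans (Real.rpow_le_rpow_of_exponent_le (by linarith) (by norm_num))
  have hV4 : ((V * V : ℕ) : ℝ) ≤ (N : ℝ) ^ (1 / 10 : ℝ) := by
    push_cast
    calc (V : ℝ) * V ≤ (N : ℝ) ^ (1 / 20 : ℝ) * (N : ℝ) ^ (1 / 20 : ℝ) := by gcongr
      _ = _ := by rw [← Real.rpow_add hN0]; norm_num
  have hVpos : 1 ≤ V := by
    have h4 : (1 : ℝ) ≤ (N : ℝ) ^ (1 / 21 : ℝ) := Real.one_le_rpow (by linarith) (by norm_num)
    exact_mod_cast h4.trans hV2
  have hpow1 : (N : ℝ) ^ (1 / 10 : ℝ) ≤ N := by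
    have := Real.rpow_le_rpow_of_exponent_le (show (1 : ℝ) ≤ N by linarith) (show (1 / 10 : ℝ) ≤ 1 by norm_num)
    rwa [Real.rpow_one] at this
  have hVVN : V * V ≤ N := by exact_mod_cast hV4.trans hpow1
  have hVN : V ≤ N := (Nat.le_mul_self V).trans hVVN
  -- the decomposition
  obtain ⟨f1, hf1⟩ : ∃ f1 : ℕ → ℂ, f1 = fun n => ∑ d ∈ n.divisors.filter (fun d => d ≤ V),
    ((ArithmeticFunction.moebius d : ℤ) : ℂ) * (Real.log ((n / d : ℕ) : ℝ) : ℂ) := ⟨_, rfl⟩
  obtain ⟨f2, hf2⟩ : ∃ f2 : ℕ → ℂ, f2 = fun n => ∑ m ∈ n.divisors.filter (fun m => m ≤ V * V), cV V m := ⟨_, rfl⟩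
  have hdec : ∀ η : ℝ, DS lamw (Ioc N1 N2) η =
      DS f1 (Ioc N1 N2) η - DS f2 (Ioc N1 N2) η + DS (bV V) (Ioc N1 N2) η - DS (fun _ => 1) (Ioc N1 N2) η := by
    intro η
    unfold DS
    rw [← sum_sub_distrib, ← sum_add_distrib, ← sum_sub_distrib]
    refine sum_congr rfl fun n hn => ?_
    rw [mem_Ioc] at hn
    have h4 := hV.1 V n hVpos (by omega)
    unfold lamw
    rw [h4, hf1, hf2]
    ring
  -- the main bound
  have hmain := cut3 (g := fun η => ‖DS lamw (Ioc N1 N2) η‖ ^ 2) (cont_DS2 _ _) (fun η => by positivity)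
    (x := x) (L := L) (T := l ^ K2) (S := (E * N / l ^ (A + K2)) ^ 2) (R := N * l ^ (C + 1))
    (B := 4 * (8 * D1 ^ 2 + D3 + 12850 * C0 ^ 2) * (N ^ 2 / l ^ A)) (by positivity) hL0 (by positivity)
    (by
      intro η hη
      have h4 := hE N N1 N2 η hN8 hN1 hN12 hN2 (hη.trans e1)
      rw [← hl] at h4
      have h5 := norm_nonneg (DS lamw (Ioc N1 N2) η)
      gcongr)
    (by
      intro a M hM0 hML hη
      have hT : 0 < l ^ K2 := by positivity
      have hηT : ∀ η ∈ Set.Icc a (a + M), l ^ K2 ≤ |η| := fun η h => (hη η h).1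
      have hη1 : ∀ η ∈ Set.Icc a (a + M), 1 ≤ |η| := fun η h => (one_le_pow₀ hl1).trans (hηT η h)
      have hM : M ≤ √N * l ^ C := hML.trans hL
      have hr65 : ((N : ℝ) ^ (0.65 : ℝ)) ^ 2 = (N : ℝ) ^ (1.3 : ℝ) := by
        rw [← Real.rpow_natCast, ← Real.rpow_mul hN0.le]
        norm_num
      -- arithmetic of the powers
      have q1 : l ^ (2 * K1) * N ^ 2 / l ^ K2 ≤ N ^ 2 / l ^ A := by
        rw [div_le_div_iff₀ (by positivity) (by positivity)]
        calc l ^ (2 * K1) * (N : ℝ) ^ 2 * l ^ A = N ^ 2 * l ^ (2 * K1 + A) := by ring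
          _ ≤ N ^ 2 * l ^ K2 := by
              gcongr
              omega
      have q2 : l ^ (2 * K1) * (N : ℝ) ^ (1.3 : ℝ) * (√N * l ^ C) ≤ N ^ 2 / l ^ A := by
        rw [le_div_iff₀ (by positivity), hsq]
        calc l ^ (2 * K1) * (N : ℝ) ^ (1.3 : ℝ) * ((N : ℝ) ^ (0.5 : ℝ) * l ^ C) * l ^ A =
            l ^ (2 * K1 + C + A) * ((N : ℝ) ^ (1.3 : ℝ) * (N : ℝ) ^ (0.5 : ℝ)) := by ring
          _ ≤ (N : ℝ) ^ (0.2 : ℝ) * ((N : ℝ) ^ (1.3 : ℝ) * (N : ℝ) ^ (0.5 : ℝ)) := by gcongr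
          _ = (N : ℝ) ^ 2 := by
              rw [← Real.rpow_add hN0, ← Real.rpow_add hN0, ← Real.rpow_natCast]
              norm_num
      have q3 : l ^ 2 * N ^ 2 / l ^ K2 ≤ N ^ 2 / l ^ A := by
        rw [div_le_div_iff₀ (by positivity) (by positivity)]
        calc l ^ 2 * (N : ℝ) ^ 2 * l ^ A = N ^ 2 * l ^ (2 + A) := by ring
          _ ≤ N ^ 2 * l ^ K2 := by
              gcongr
              omega
      have q4 : l ^ 2 * (N * l ^ (C + 1)) * (√N * l ^ C) ≤ N ^ 2 / l ^ A := by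
        rw [le_div_iff₀ (by positivity), hsq]
        calc l ^ 2 * (N * l ^ (C + 1)) * ((N : ℝ) ^ (0.5 : ℝ) * l ^ C) * l ^ A =
            l ^ (2 * C + 3 + A) * (N * (N : ℝ) ^ (0.5 : ℝ)) := by ring
          _ ≤ (N : ℝ) ^ (0.5 : ℝ) * (N * (N : ℝ) ^ (0.5 : ℝ)) := by gcongr
          _ = (N : ℝ) ^ (0.5 : ℝ) * (N : ℝ) ^ (0.5 : ℝ) * N := by ring
          _ = (N : ℝ) ^ 2 := by
              rw [← Real.rpow_add hN0]
              norm_num
              ring
      have hP : 0 ≤ (N : ℝ) ^ 2 / l ^ A := by positivity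
      -- type I sums
      have hI : ∀ f : ℕ → ℂ, (∀ η ∈ Set.Icc a (a + M), ‖DS f (Ioc N1 N2) η‖ ≤
          D1 * l ^ K1 * (N / |η| + (N : ℝ) ^ (0.65 : ℝ))) →
          ∫ η in a..(a + M), ‖DS f (Ioc N1 N2) η‖ ^ 2 ≤ 4 * D1 ^ 2 * (N ^ 2 / l ^ A) := by
        intro f hf
        have h4 := int_bd (cont_DS2 f (Ioc N1 N2)) (a := a) (M := M) (T := l ^ K2)
          (P := 2 * D1 ^ 2 * (l ^ (2 * K1) * N ^ 2)) (Q := 2 * D1 ^ 2 * (l ^ (2 * K1) * (N : ℝ) ^ (1.3 : ℝ)))
          hT hM0 (by positivity) hηT (by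
            intro η h
            have h5 := hf η h
            have h6 : 0 < |η| := by linarith [hη1 η h]
            have h0 := norm_nonneg (DS f (Ioc N1 N2) η)
            calc ‖DS f (Ioc N1 N2) η‖ ^ 2 ≤ (D1 * l ^ K1 * (N / |η| + (N : ℝ) ^ (0.65 : ℝ))) ^ 2 := by gcongr
              _ = D1 ^ 2 * l ^ (2 * K1) * (N / |η| + (N : ℝ) ^ (0.65 : ℝ)) ^ 2 := by ring
              _ ≤ D1 ^ 2 * l ^ (2 * K1) * (2 * ((N / |η|) ^ 2 + ((N : ℝ) ^ (0.65 : ℝ)) ^ 2)) := by
                  gcongr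
                  nlinarith [sq_nonneg ((N : ℝ) / |η| - (N : ℝ) ^ (0.65 : ℝ))]
              _ = _ := by
                  rw [hr65, div_pow, sq_abs]
                  ring)
        refine h4.trans ?_
        calc 2 * D1 ^ 2 * (l ^ (2 * K1) * N ^ 2) / l ^ K2 + 2 * D1 ^ 2 * (l ^ (2 * K1) * (N : ℝ) ^ (1.3 : ℝ)) * M
            ≤ 2 * D1 ^ 2 * (l ^ (2 * K1) * N ^ 2) / l ^ K2 +
              2 * D1 ^ 2 * (l ^ (2 * K1) * (N : ℝ) ^ (1.3 : ℝ)) * (√N * l ^ C) := by gcongr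
          _ = 2 * D1 ^ 2 * (l ^ (2 * K1) * N ^ 2 / l ^ K2) +
              2 * D1 ^ 2 * (l ^ (2 * K1) * (N : ℝ) ^ (1.3 : ℝ) * (√N * l ^ C)) := by ring
          _ ≤ 2 * D1 ^ 2 * (N ^ 2 / l ^ A) + 2 * D1 ^ 2 * (N ^ 2 / l ^ A) := by gcongr
          _ = _ := by ring
      have b1 := hI f1 (by
        intro η h
        have h4 := (h1 N N1 N2 V η (fun d => ((ArithmeticFunction.moebius d : ℤ) : ℂ)) (by omega) hN1 hN12 hN2 hV3 (by
          intro d _
          refine le_trans ?_ (show (1 : ℝ) ≤ Real.log N by rw [← hl]; exact hl1)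
          rw [Complex.norm_intCast]
          exact_mod_cast ArithmeticFunction.abs_moebius_le_one) (hη1 η h) (by
            rw [← hl]
            exact (hη η h).2)).2
        rw [← hl] at h4
        rw [hf1]
        exact h4)
      have b2 := hI f2 (by
        intro η h
        have h4 := (h1 N N1 N2 (V * V) η (cV V) (by omega) hN1 hN12 hN2 hV4 (by
          intro d hd
          rw [mem_Icc] at hd
          refine (hV.2 V d hd.1).trans ?_
          have hd1 : (1 : ℝ) ≤ d := by exact_mod_cast hd.1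
          refine Real.log_le_log (by linarith) ?_
          exact_mod_cast hd.2.trans hVVN) (hη1 η h) (by
            rw [← hl]
            exact (hη η h).2)).1
        rw [← hl] at h4
        rw [hf2]
        exact h4)
      have b3 : ∫ η in a..(a + M), ‖DS (bV V) (Ioc N1 N2) η‖ ^ 2 ≤ D3 * (N ^ 2 / l ^ A) := by
        have h4 := h3 N N1 N2 V a M (by omega) hN1 hN12 hN2 hV2 hV3 hM0 (by
          rw [← hl]
          refine hM.trans ?_
          gcongr
          omega) (by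
            intro η h
            rw [← hl]
            refine ⟨le_trans ?_ (hηT η h), (hη η h).2⟩
            gcongr
            omega)
        rw [← hl] at h4
        rw [← mul_div_assoc]
        exact h4
      have b4 : ∫ η in a..(a + M), ‖DS (fun _ => 1) (Ioc N1 N2) η‖ ^ 2 ≤ 12850 * C0 ^ 2 * (N ^ 2 / l ^ A) := by
        have h4 := int_bd (cont_DS2 (fun _ => 1) (Ioc N1 N2)) (a := a) (M := M) (T := l ^ K2)
          (P := 12800 * C0 ^ 2 * (l ^ 2 * N ^ 2)) (Q := 50 * C0 ^ 2 * (l ^ 2 * (N * l ^ (C + 1))))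
          hT hM0 (by positivity) hηT (by
            intro η h
            have h6 : 0 < |η| := by linarith [hη1 η h]
            have hN1R : (N : ℝ) ≤ N1 := by exact_mod_cast hN1
            have hN116 : (N1 : ℝ) ≤ 16 * N := by exact_mod_cast hN12.trans hN2
            have h5 := (hZS N1 N2 η (by omega) hN12 (by omega) (hη1 η h)).1
            have h0 := norm_nonneg (DS (fun _ => 1) (Ioc N1 N2) η)
            have h7 : 1 + Real.log N1 ≤ 5 * l := by
              have h8 : Real.log N1 ≤ Real.log (16 * N) := Real.log_le_log (by linarith) hN116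
              rw [Real.log_mul (by norm_num) hN0.ne', ← hl] at h8
              have h9 : (16 : ℝ) = 2 ^ 4 := by norm_num
              rw [h9, Real.log_pow] at h8
              have := Real.log_two_lt_d9
              norm_num at h8
              linarith
            have h7' : 0 ≤ 1 + Real.log N1 := by
              have := Real.log_nonneg (show (1 : ℝ) ≤ N1 by linarith)
              linarith
            have h8 : ‖DS (fun _ => 1) (Ioc N1 N2) η‖ ≤ C0 * (16 * N / |η| + √|η|) * (5 * l) := by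
              refine h5.trans ?_
              gcongr
            have h9 : √|η| ^ 2 ≤ N * l ^ (C + 1) := by
              rw [Real.sq_sqrt h6.le]
              exact (hη η h).2
            calc ‖DS (fun _ => 1) (Ioc N1 N2) η‖ ^ 2 ≤ (C0 * (16 * N / |η| + √|η|) * (5 * l)) ^ 2 := by gcongr
              _ = 25 * C0 ^ 2 * l ^ 2 * (16 * N / |η| + √|η|) ^ 2 := by ring
              _ ≤ 25 * C0 ^ 2 * l ^ 2 * (2 * ((16 * N / |η|) ^ 2 + √|η| ^ 2)) := by
                  gcongr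
                  nlinarith [sq_nonneg (16 * (N : ℝ) / |η| - √|η|)]
              _ ≤ 25 * C0 ^ 2 * l ^ 2 * (2 * ((16 * N / |η|) ^ 2 + N * l ^ (C + 1))) := by gcongr
              _ = _ := by
                  rw [div_pow, sq_abs]
                  ring)
        refine h4.trans ?_
        calc 12800 * C0 ^ 2 * (l ^ 2 * N ^ 2) / l ^ K2 + 50 * C0 ^ 2 * (l ^ 2 * (N * l ^ (C + 1))) * M
            ≤ 12800 * C0 ^ 2 * (l ^ 2 * N ^ 2) / l ^ K2 +
              50 * C0 ^ 2 * (l ^ 2 * (N * l ^ (C + 1))) * (√N * l ^ C) := by gcongr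
          _ = 12800 * C0 ^ 2 * (l ^ 2 * N ^ 2 / l ^ K2) +
              50 * C0 ^ 2 * (l ^ 2 * (N * l ^ (C + 1)) * (√N * l ^ C)) := by ring
          _ ≤ 12800 * C0 ^ 2 * (N ^ 2 / l ^ A) + 50 * C0 ^ 2 * (N ^ 2 / l ^ A) := by gcongr
          _ = _ := by ring
      have hi : ∀ f : ℕ → ℂ, IntervalIntegrable (fun η => ‖DS f (Ioc N1 N2) η‖ ^ 2) volume a (a + M) :=
        fun f => (cont_DS2 f _).intervalIntegrable _ _
      have h5 : ∫ η in a..(a + M), ‖DS lamw (Ioc N1 N2) η‖ ^ 2 ≤ ∫ η in a..(a + M),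
          4 * (‖DS f1 (Ioc N1 N2) η‖ ^ 2 + ‖DS f2 (Ioc N1 N2) η‖ ^ 2 + ‖DS (bV V) (Ioc N1 N2) η‖ ^ 2 +
            ‖DS (fun _ => 1) (Ioc N1 N2) η‖ ^ 2) :=
        intervalIntegral.integral_mono_on (by linarith) (hi _)
          (((((hi _).add (hi _)).add (hi _)).add (hi _)).const_mul 4) (by
            intro η _
            rw [hdec η]
            exact sq4 _ _ _ _)
      rw [intervalIntegral.integral_const_mul, intervalIntegral.integral_add (((hi _).add (hi _)).add (hi _)) (hi _),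
        intervalIntegral.integral_add ((hi _).add (hi _)) (hi _), intervalIntegral.integral_add (hi _) (hi _)] at h5
      refine h5.trans ?_
      calc _ ≤ 4 * (4 * D1 ^ 2 * (N ^ 2 / l ^ A) + 4 * D1 ^ 2 * (N ^ 2 / l ^ A) + D3 * (N ^ 2 / l ^ A) +
            12850 * C0 ^ 2 * (N ^ 2 / l ^ A)) := by gcongr
        _ = _ := by ring)
    hR
  refine hmain.trans ?_
  rw [← hl]
  have h4 : 2 * l ^ K2 * (E * N / l ^ (A + K2)) ^ 2 ≤ 2 * E ^ 2 * (N ^ 2 / l ^ A) := by
    have h5 : 2 * l ^ K2 * (E * N / l ^ (A + K2)) ^ 2 = 2 * E ^ 2 * N ^ 2 * (l ^ K2 / (l ^ (A + K2)) ^ 2) := by ring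
    have h6 : 2 * E ^ 2 * (N ^ 2 / l ^ A) = 2 * E ^ 2 * N ^ 2 * (1 / l ^ A) := by ring
    rw [h5, h6]
    refine mul_le_mul_of_nonneg_left ?_ (by positivity)
    rw [div_le_div_iff₀ (by positivity) (by positivity), one_mul, ← pow_mul, ← pow_add]
    exact pow_le_pow_right₀ hl1 (by omega)
  calc 2 * l ^ K2 * (E * N / l ^ (A + K2)) ^ 2 + 2 * (4 * (8 * D1 ^ 2 + D3 + 12850 * C0 ^ 2) * (N ^ 2 / l ^ A))
      ≤ 2 * E ^ 2 * (N ^ 2 / l ^ A) + 2 * (4 * (8 * D1 ^ 2 + D3 + 12850 * C0 ^ 2) * (N ^ 2 / l ^ A)) := by gcongr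
    _ = _ := by ring

end Pool.Agent.L7h58.MW
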