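import Pool.Agent.L7h88.MW.Stm

/-! # Project MW, part TI: type I sums -/

set_option autoImplicit false

namespace Pool.Agent.L7h58.MW

open Finset
open Pool.Agent.H376R2.MR (er)
open Pool.Agent.L7h88.MW

theorem er_add' (τ x y : ℝ) : er τ (x + y) = er τ x * er τ y := by
  unfold er
  rw [← Complex.exp_add]
  congr 1
  push_cast
  ring

theorem norm_er2 (τ x : ℝ) : ‖er τ x‖ = 1 := by
  unfold er
  exact Complex.norm_exp_ofReal_mul_I _

/-- the exchange of the summations -/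
theorem exch (F : ℕ → ℕ → ℂ) (N1 N2 V : ℕ) :
    ∑ n ∈ Ioc N1 N2, ∑ d ∈ n.divisors.filter (fun d => d ≤ V), F d n =
      ∑ d ∈ Icc 1 V, ∑ k ∈ Ioc (N1 / d) (N2 / d), F d (d * k) := by
  have h1 : ∀ n ∈ Ioc N1 N2, ∑ d ∈ n.divisors.filter (fun d => d ≤ V), F d n =
      ∑ d ∈ Icc 1 V, if d ∣ n then F d n else 0 := by
    intro n hn
    rw [mem_Ioc] at hn
    rw [← sum_filter]
    refine sum_congr ?_ fun _ _ => rfl
    ext d
    simp only [mem_filter, Nat.mem_divisors, mem_Icc]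
    constructor
    · rintro ⟨⟨h1, h2⟩, h3⟩
      exact ⟨⟨Nat.pos_of_dvd_of_pos h1 (by omega), h3⟩, h1⟩
    · rintro ⟨⟨h1, h2⟩, h3⟩
      exact ⟨⟨h3, by omega⟩, h2⟩
  rw [sum_congr rfl h1, sum_comm]
  refine sum_congr rfl fun d hd => ?_
  rw [mem_Icc] at hd
  rw [← sum_filter]
  have h2 : (Ioc N1 N2).filter (fun n => d ∣ n) = (Ioc (N1 / d) (N2 / d)).image (fun k => d * k) := by
    ext n
    simp only [mem_filter, mem_Ioc, mem_image]
    constructor
    · rintro ⟨⟨h1, h2⟩, k, rfl⟩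
      refine ⟨k, ⟨?_, ?_⟩, rfl⟩
      · rw [Nat.div_lt_iff_lt_mul (by omega), mul_comm]
        exact h1
      · rw [Nat.le_div_iff_mul_le (by omega), mul_comm]
        exact h2
    · rintro ⟨k, ⟨h1, h2⟩, rfl⟩
      rw [Nat.div_lt_iff_lt_mul (by omega), mul_comm] at h1
      rw [Nat.le_div_iff_mul_le (by omega), mul_comm] at h2
      exact ⟨⟨h1, h2⟩, dvd_mul_right _ _⟩
  rw [h2, sum_image]
  intro x _ y _ h
  exact Nat.eq_of_mul_eq_mul_left (by omega) h

theorem harm (V : ℕ) (hV : 1 ≤ V) : ∑ d ∈ Icc 1 V, (1 : ℝ) / d ≤ 1 + Real.log V := by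
  induction V, hV using Nat.le_induction with
  | base => simp
  | succ n hn ih =>
    rw [← Finset.insert_Icc_right_eq_Icc_add_one (by omega), sum_insert (by simp)]
    have hp : (0 : ℝ) < n := by exact_mod_cast hn
    have h := Real.one_sub_inv_le_log_of_pos (x := ((n : ℝ) + 1) / n) (by positivity)
    rw [Real.log_div (by positivity) hp.ne'] at h
    have h2 : 1 - (((n : ℝ) + 1) / n)⁻¹ = 1 / ((n + 1 : ℕ) : ℝ) := by
      push_cast
      field_simp
      ring
    rw [h2] at h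
    push_cast at h ⊢
    linarith

theorem s_TI (hZ : S_ZS) : S_TI := by
  obtain ⟨C0, hC0, hZS⟩ := hZ
  intro C
  refine ⟨800 * C0, C + 4, 3, by linarith, ?_⟩
  intro N N1 N2 V η c hN hN1 hN12 hN2 hV hc h1 hη
  have hNR : (3 : ℝ) ≤ N := by exact_mod_cast hN
  have hN0 : (0 : ℝ) < N := by linarith
  obtain ⟨l, hl⟩ : ∃ l, l = Real.log N := ⟨_, rfl⟩
  have hl1 : 1 ≤ l := by
    rw [hl, Real.le_log_iff_exp_le hN0]
    linarith [Real.exp_one_lt_d9]
  have hηp : 0 < |η| := by linarith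
  have hs : 0 ≤ √|η| := Real.sqrt_nonneg _
  have hVN : V ≤ N := by
    have h2 : (N : ℝ) ^ (1 / 10 : ℝ) ≤ (N : ℝ) ^ (1 : ℝ) :=
      Real.rpow_le_rpow_of_exponent_le (by linarith) (by norm_num)
    rw [Real.rpow_one] at h2
    exact_mod_cast hV.trans h2
  have h16 : 1 + Real.log (16 * N) ≤ 5 * l := by
    rw [Real.log_mul (by norm_num) hN0.ne', ← hl]
    have h7 : (16 : ℝ) = 2 ^ 4 := by norm_num
    rw [h7, Real.log_pow]
    have := Real.log_two_lt_d9
    norm_num
    linarith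
  -- one divisor
  have hone : ∀ d ∈ Icc 1 V,
      ‖DS (fun _ => 1) (Ioc (N1 / d) (N2 / d)) η‖ ≤ C0 * (16 * N / (d * |η|) + √|η|) * (25 * l ^ 2) ∧
      ‖DS (fun n => (Real.log n : ℂ)) (Ioc (N1 / d) (N2 / d)) η‖ ≤
        C0 * (16 * N / (d * |η|) + √|η|) * (25 * l ^ 2) := by
    intro d hd
    rw [mem_Icc] at hd
    have hd0 : (0 : ℝ) < d := by exact_mod_cast hd.1
    have a1 : 1 ≤ N1 / d := by
      rw [Nat.le_div_iff_mul_le (by omega)]
      omega
    have a2 : N1 / d ≤ N2 / d := Nat.div_le_div_right hN12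
    have a3 : N2 / d ≤ 16 * (N1 / d) + 16 := by
      have h2 : N2 < d * (16 * (N1 / d) + 16 + 1) := by
        have h3 := Nat.div_add_mod N1 d
        have h4 := Nat.mod_lt N1 (show 0 < d by omega)
        have h5 : d * (16 * (N1 / d) + 16 + 1) = 16 * (d * (N1 / d)) + 16 * d + d := by ring
        rw [h5]
        omega
      have h3 : N2 / d < 16 * (N1 / d) + 16 + 1 := by
        rw [Nat.div_lt_iff_lt_mul (by omega), mul_comm]
        exact h2
      omega
    obtain ⟨z1, z2⟩ := hZS (N1 / d) (N2 / d) η a1 a2 a3 h1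
    have b1 : ((N1 / d : ℕ) : ℝ) ≤ 16 * N / d := by
      have h2 : ((N1 / d : ℕ) : ℝ) ≤ (N1 : ℝ) / d := Nat.cast_div_le
      refine h2.trans ?_
      have h3 : (N1 : ℝ) ≤ 16 * N := by exact_mod_cast hN12.trans hN2
      gcongr
    have b1' : (1 : ℝ) ≤ ((N1 / d : ℕ) : ℝ) := by exact_mod_cast a1
    have b2 : ((N1 / d : ℕ) : ℝ) / |η| ≤ 16 * N / (d * |η|) := by
      rw [div_le_div_iff₀ hηp (by positivity)]
      rw [le_div_iff₀ hd0] at b1
      nlinarith
    have b3 : 1 + Real.log ((N1 / d : ℕ) : ℝ) ≤ 5 * l := by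
      refine le_trans ?_ h16
      have h2 : Real.log ((N1 / d : ℕ) : ℝ) ≤ Real.log (16 * N) := by
        apply Real.log_le_log (by linarith)
        refine b1.trans ?_
        rw [div_le_iff₀ hd0]
        have : (1 : ℝ) ≤ d := by exact_mod_cast hd.1
        nlinarith
      linarith
    have b0 : 0 ≤ Real.log ((N1 / d : ℕ) : ℝ) := Real.log_nonneg b1'
    have b4 : C0 * (((N1 / d : ℕ) : ℝ) / |η| + √|η|) ≤ C0 * (16 * N / (d * |η|) + √|η|) := by
      gcongr
    have b5 : 0 ≤ C0 * (16 * N / (d * |η|) + √|η|) := by positivity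
    constructor
    · refine z1.trans ?_
      refine mul_le_mul b4 ?_ (by linarith) b5
      nlinarith
    · refine z2.trans ?_
      refine mul_le_mul b4 ?_ (by positivity) b5
      calc (1 + Real.log ((N1 / d : ℕ) : ℝ)) ^ 2 ≤ (5 * l) ^ 2 := by gcongr
        _ = 25 * l ^ 2 := by ring
  -- the sum of the bounds
  have hsum : ∑ d ∈ Icc 1 V, l * (C0 * (16 * N / (d * |η|) + √|η|) * (25 * l ^ 2)) ≤
      800 * C0 * Real.log N ^ (C + 4) * (N / |η| + (N : ℝ) ^ (0.65 : ℝ)) := by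
    rw [← hl]
    have e1 : ∑ d ∈ Icc 1 V, l * (C0 * (16 * N / (d * |η|) + √|η|) * (25 * l ^ 2)) =
        25 * C0 * l ^ 3 * (16 * N / |η| * ∑ d ∈ Icc 1 V, (1 : ℝ) / d + V * √|η|) := by
      have e2 : (V : ℝ) * √|η| = ∑ d ∈ Icc 1 V, √|η| := by simp
      rw [e2, mul_sum, ← sum_add_distrib, mul_sum]
      refine sum_congr rfl fun d hd => ?_
      have hd0 : (0 : ℝ) < d := by exact_mod_cast (mem_Icc.1 hd).1
      field_simp
    rw [e1]
    have h2 : ∑ d ∈ Icc 1 V, (1 : ℝ) / d ≤ 2 * l := by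
      rcases Nat.eq_zero_or_pos V with h | h
      · subst h
        simp
        linarith
      · refine (harm V h).trans ?_
        have h3 : Real.log V ≤ l := by
          rw [hl]
          exact Real.log_le_log (by exact_mod_cast h) (by exact_mod_cast hVN)
        linarith
    have h3 : (V : ℝ) * √|η| ≤ (N : ℝ) ^ (0.65 : ℝ) * l ^ C := by
      have h4 : √|η| ≤ (N : ℝ) ^ (1 / 2 : ℝ) * l ^ C := by
        have hlC : 1 ≤ l ^ C := one_le_pow₀ hl1
        rw [hl] at hlC ⊢
        have h5 : √|η| ≤ √(N * Real.log N ^ C) := Real.sqrt_le_sqrt hη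
        rw [Real.sqrt_mul hN0.le, Real.sqrt_eq_rpow (N : ℝ)] at h5
        refine h5.trans ?_
        refine mul_le_mul_of_nonneg_left ?_ (by positivity)
        rw [Real.sqrt_le_left (by linarith)]
        nlinarith
      calc (V : ℝ) * √|η| ≤ (N : ℝ) ^ (1 / 10 : ℝ) * ((N : ℝ) ^ (1 / 2 : ℝ) * l ^ C) := by
            gcongr
        _ = (N : ℝ) ^ (0.6 : ℝ) * l ^ C := by
            rw [← mul_assoc, ← Real.rpow_add hN0]
            norm_num
        _ ≤ (N : ℝ) ^ (0.65 : ℝ) * l ^ C := by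
            have : (0 : ℝ) ≤ l ^ C := by positivity
            refine mul_le_mul_of_nonneg_right ?_ this
            exact Real.rpow_le_rpow_of_exponent_le (by linarith) (by norm_num)
    have hr0 : 0 ≤ (N : ℝ) ^ (0.65 : ℝ) := by positivity
    have hlC : 1 ≤ l ^ C := one_le_pow₀ hl1
    calc 25 * C0 * l ^ 3 * (16 * N / |η| * ∑ d ∈ Icc 1 V, (1 : ℝ) / d + V * √|η|)
        ≤ 25 * C0 * l ^ 3 * (16 * N / |η| * (2 * l) + (N : ℝ) ^ (0.65 : ℝ) * l ^ C) := by
          gcongr
      _ ≤ 25 * C0 * l ^ 3 * (32 * (l * l ^ C) * (N / |η|) + 32 * (l * l ^ C) * (N : ℝ) ^ (0.65 : ℝ)) := by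
          have hx : 0 ≤ (N : ℝ) / |η| := by positivity
          have h5 : 16 * (N : ℝ) / |η| * (2 * l) ≤ 32 * (l * l ^ C) * (N / |η|) := by
            have : 16 * (N : ℝ) / |η| * (2 * l) = 32 * l * 1 * (N / |η|) := by ring
            rw [this]
            have : 32 * (l * l ^ C) * (N / |η|) = 32 * l * l ^ C * (N / |η|) := by ring
            rw [this]
            gcongr
          have h6 : (N : ℝ) ^ (0.65 : ℝ) * l ^ C ≤ 32 * (l * l ^ C) * (N : ℝ) ^ (0.65 : ℝ) := by
            have : 32 * (l * l ^ C) * (N : ℝ) ^ (0.65 : ℝ) = (N : ℝ) ^ (0.65 : ℝ) * l ^ C * (32 * l) := by ring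
            rw [this]
            exact le_mul_of_one_le_right (by positivity) (by linarith)
          gcongr
      _ = 800 * C0 * l ^ (C + 4) * (N / |η| + (N : ℝ) ^ (0.65 : ℝ)) := by ring
  constructor
  · have e1 : DS (fun n => ∑ d ∈ n.divisors.filter (fun d => d ≤ V), c d) (Ioc N1 N2) η =
        ∑ d ∈ Icc 1 V, c d * er (-η) (Real.log d) * DS (fun _ => 1) (Ioc (N1 / d) (N2 / d)) η := by
      unfold DS
      have e2 : ∀ n ∈ Ioc N1 N2, (∑ d ∈ n.divisors.filter (fun d => d ≤ V), c d) * er (-η) (Real.log n) =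
          ∑ d ∈ n.divisors.filter (fun d => d ≤ V), (fun d n : ℕ => c d * er (-η) (Real.log n)) d n := by
        intro n _
        rw [sum_mul]
      rw [sum_congr rfl e2, exch]
      refine sum_congr rfl fun d hd => ?_
      rw [mul_sum]
      refine sum_congr rfl fun k hk => ?_
      have hd0 : (d : ℝ) ≠ 0 := by
        have := (mem_Icc.1 hd).1
        positivity
      have hk0 : (k : ℝ) ≠ 0 := by
        have : 0 < k := lt_of_le_of_lt (Nat.zero_le _) (mem_Ioc.1 hk).1
        positivity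
      simp only [one_mul]
      rw [Nat.cast_mul, Real.log_mul hd0 hk0, er_add']
      ring
    rw [e1]
    refine (norm_sum_le _ _).trans (le_trans (sum_le_sum fun d hd => ?_) hsum)
    rw [norm_mul, norm_mul, norm_er2, mul_one]
    exact mul_le_mul (by rw [hl]; exact hc d hd) (hone d hd).1 (norm_nonneg _) (by linarith)
  · have e1 : DS (fun n => ∑ d ∈ n.divisors.filter (fun d => d ≤ V), c d * (Real.log ((n / d : ℕ) : ℝ) : ℂ))
        (Ioc N1 N2) η =
        ∑ d ∈ Icc 1 V, c d * er (-η) (Real.log d) * DS (fun n => (Real.log n : ℂ)) (Ioc (N1 / d) (N2 / d)) η := by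
      unfold DS
      have e2 : ∀ n ∈ Ioc N1 N2, (∑ d ∈ n.divisors.filter (fun d => d ≤ V),
          c d * (Real.log ((n / d : ℕ) : ℝ) : ℂ)) * er (-η) (Real.log n) =
          ∑ d ∈ n.divisors.filter (fun d => d ≤ V),
            (fun d n : ℕ => c d * (Real.log ((n / d : ℕ) : ℝ) : ℂ) * er (-η) (Real.log n)) d n := by
        intro n _
        rw [sum_mul]
      rw [sum_congr rfl e2, exch]
      refine sum_congr rfl fun d hd => ?_
      rw [mul_sum]
      refine sum_congr rfl fun k hk => ?_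
      have hd1 := (mem_Icc.1 hd).1
      have hd0 : (d : ℝ) ≠ 0 := by positivity
      have hk0 : (k : ℝ) ≠ 0 := by
        have : 0 < k := lt_of_le_of_lt (Nat.zero_le _) (mem_Ioc.1 hk).1
        positivity
      simp only
      rw [Nat.mul_div_cancel_left k hd1, Nat.cast_mul, Real.log_mul hd0 hk0, er_add']
      ring
    rw [e1]
    refine (norm_sum_le _ _).trans (le_trans (sum_le_sum fun d hd => ?_) hsum)
    rw [norm_mul, norm_mul, norm_er2, mul_one]
    exact mul_le_mul (by rw [hl]; exact hc d hd) (hone d hd).2 (norm_nonneg _) (by linarith)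

end Pool.Agent.L7h58.MW
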