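import Pool.Agent.L7h88.MW.Stm
import Pool.Agent.Q53.CR.SDB

/-! # Project MW, part ZS: the sums of `n^{-iη}` -/

set_option autoImplicit false

namespace Pool.Agent.L7h58.MW

open Finset
open Pool.Agent.H376R2.MR (er)
open Pool.Agent.L7h88.MW
open Pool.Agent.H469R2.NK (e kusmin_landau_anti norm_sum_neg)
open Pool.Agent.Q236.CR (nt)

theorem er_e (η x : ℝ) : er (-η) x = e (-(η / (2 * Real.pi)) * x) := by
  unfold er e
  have hpi : Real.pi ≠ 0 := Real.pi_ne_zero
  have h1 : 2 * Real.pi * (-(η / (2 * Real.pi)) * x) = -η * x := by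
    field_simp
  rw [h1]

theorem norm_er' (τ x : ℝ) : ‖er τ x‖ = 1 := by
  unfold er
  exact Complex.norm_exp_ofReal_mul_I _

theorem er_nt (η : ℝ) (n : ℕ) (hn : 1 ≤ n) : er (-η) (Real.log n) = nt η n := by
  rw [Pool.Agent.Q53.CR.nt_e η n hn, er_e]

/-- a sum over `Ioc` as a sum over `range` -/
theorem sum_Ioc_range (f : ℕ → ℂ) (a b : ℕ) : ∑ n ∈ Ioc a b, f n = ∑ k ∈ range (b - a), f (a + 1 + k) := by
  rw [← Finset.sum_image (f := f) (g := fun k => a + 1 + k) (s := range (b - a))]
  · congr 1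
    ext n
    simp only [mem_Ioc, mem_image, mem_range]
    constructor
    · rintro ⟨h1, h2⟩
      exact ⟨n - (a + 1), by omega, by omega⟩
    · rintro ⟨k, hk, rfl⟩
      omega
  · intro x _ y _ h
    simpa using h

/-- small frequencies: Kusmin-Landau -/
theorem small (a b : ℕ) (η : ℝ) (ha : 1 ≤ a) (hb : b ≤ 2 * a) (h1 : 1 ≤ |η|) (h2 : |η| ≤ a) :
    ‖∑ n ∈ Ioc a b, er (-η) (Real.log n)‖ ≤ 12 * Real.pi * (a / |η|) := by
  have hpi : 0 < Real.pi := Real.pi_pos
  have hpi3 : 3 < Real.pi := Real.pi_gt_three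
  have haR : (1 : ℝ) ≤ a := by exact_mod_cast ha
  have key : ‖∑ n ∈ range (b - a), e (|η| / (2 * Real.pi) * Real.log ((a + 1 + n : ℕ) : ℝ))‖ ≤
      2 / (|η| / (6 * Real.pi * a)) := by
    have hstep : ∀ n : ℕ, |η| / (2 * Real.pi) * Real.log ((a + 1 + (n + 1) : ℕ) : ℝ) -
        |η| / (2 * Real.pi) * Real.log ((a + 1 + n : ℕ) : ℝ) =
        |η| / (2 * Real.pi) * Real.log (1 + 1 / ((a + 1 + n : ℕ) : ℝ)) := by
      intro n
      have hp : (0 : ℝ) < ((a + 1 + n : ℕ) : ℝ) := by positivity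
      rw [← mul_sub, ← Real.log_div (by positivity) hp.ne']
      congr 2
      push_cast
      push_cast at hp
      field_simp
      ring
    have hlow : ∀ n : ℕ, 1 / (((a + 1 + n : ℕ) : ℝ) + 1) ≤ Real.log (1 + 1 / ((a + 1 + n : ℕ) : ℝ)) := by
      intro n
      have hp : (0 : ℝ) < ((a + 1 + n : ℕ) : ℝ) := by positivity
      have h := Real.one_sub_inv_le_log_of_pos (x := 1 + 1 / ((a + 1 + n : ℕ) : ℝ)) (by positivity)
      refine le_trans (le_of_eq ?_) h
      field_simp
      ring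
    have hup : ∀ n : ℕ, Real.log (1 + 1 / ((a + 1 + n : ℕ) : ℝ)) ≤ 1 / ((a + 1 + n : ℕ) : ℝ) := by
      intro n
      have hp : (0 : ℝ) < ((a + 1 + n : ℕ) : ℝ) := by positivity
      have h := Real.log_le_sub_one_of_pos (x := 1 + 1 / ((a + 1 + n : ℕ) : ℝ)) (by positivity)
      linarith
    have hc0 : 0 ≤ |η| / (2 * Real.pi) := by positivity
    refine kusmin_landau_anti _ _ (by positivity) ?_ ?_ ?_
    · intro n hn
      rw [hstep]
      have h3 : ((a + 1 + n : ℕ) : ℝ) + 1 ≤ 3 * a := by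
        have h4 : a + 1 + n ≤ 2 * a := by omega
        have h5 : ((a + 1 + n : ℕ) : ℝ) ≤ 2 * a := by exact_mod_cast h4
        linarith
      calc |η| / (6 * Real.pi * a) = |η| / (2 * Real.pi) * (1 / (3 * a)) := by
            field_simp
            norm_num
        _ ≤ |η| / (2 * Real.pi) * (1 / (((a + 1 + n : ℕ) : ℝ) + 1)) := by
            gcongr
        _ ≤ _ := mul_le_mul_of_nonneg_left (hlow n) hc0
    · intro n hn
      rw [hstep]
      have h3 : Real.log (1 + 1 / ((a + 1 + n : ℕ) : ℝ)) ≤ 1 / a := by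
        refine (hup n).trans ?_
        apply one_div_le_one_div_of_le (by linarith)
        push_cast
        linarith
      have h4 : |η| / (2 * Real.pi) * Real.log (1 + 1 / ((a + 1 + n : ℕ) : ℝ)) ≤ 1 / (2 * Real.pi) := by
        calc _ ≤ |η| / (2 * Real.pi) * (1 / a) := mul_le_mul_of_nonneg_left h3 hc0
          _ = (|η| / a) / (2 * Real.pi) := by field_simp
          _ ≤ 1 / (2 * Real.pi) := by
              gcongr
              rw [div_le_one (by linarith)]
              exact h2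
      have h5 : 1 / (2 * Real.pi) ≤ 1 / 6 := by
        apply one_div_le_one_div_of_le (by norm_num)
        linarith
      have h6 : |η| / (6 * Real.pi * a) ≤ 1 / 18 := by
        rw [div_le_div_iff₀ (by positivity) (by norm_num)]
        nlinarith
      linarith
    · intro n hn
      have e1 : n + 2 = (n + 1) + 1 := by ring
      rw [e1, hstep, hstep]
      refine mul_le_mul_of_nonneg_left ?_ hc0
      apply Real.log_le_log (by positivity)
      gcongr
      omega
  have e2 : 2 / (|η| / (6 * Real.pi * a)) = 12 * Real.pi * (a / |η|) := by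
    have : |η| ≠ 0 := by linarith
    field_simp
    ring
  rw [e2] at key
  refine le_of_eq_of_le ?_ key
  rw [sum_Ioc_range]
  simp only [er_e]
  rcases le_total 0 η with h | h
  · rw [abs_of_nonneg h, ← norm_sum_neg]
    congr 1
    refine sum_congr rfl fun n _ => ?_
    congr 1
    ring
  · rw [abs_of_nonpos h]
    congr 1
    refine sum_congr rfl fun n _ => ?_
    congr 1
    ring

/-- one block -/
theorem block : ∃ C : ℝ, 1 ≤ C ∧ ∀ (a b : ℕ) (η : ℝ), 1 ≤ a → a ≤ b → b ≤ 2 * a → 1 ≤ |η| →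
    ‖∑ n ∈ Ioc a b, er (-η) (Real.log n)‖ ≤ C * (a / |η| + √|η|) * (1 + Real.log a) := by
  obtain ⟨C, hC, hS⟩ := Pool.Agent.Q53.CR.sdb
  refine ⟨2 * C + 48, by linarith, fun a b η ha hab hb h1 => ?_⟩
  have haR : (1 : ℝ) ≤ a := by exact_mod_cast ha
  have hla : 0 ≤ Real.log a := Real.log_nonneg haR
  have hη : 0 < |η| := by linarith
  have hs : 0 ≤ √|η| := Real.sqrt_nonneg _
  have hd : 0 ≤ (a : ℝ) / |η| := by positivity
  rcases le_total |η| a with h | h
  · refine (small a b η ha hb h1 h).trans ?_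
    have hpi : Real.pi < 4 := by linarith [Real.pi_lt_d2]
    calc 12 * Real.pi * (a / |η|) ≤ 48 * (a / |η|) := by nlinarith
      _ ≤ (2 * C + 48) * (a / |η| + √|η|) := by nlinarith
      _ ≤ _ := le_mul_of_one_le_right (by positivity) (by linarith)
  · have h3 := hS a b η 0 ha hab hb h1
    have h4 : ∑ n ∈ Ioc a b, er (-η) (Real.log n) = ∑ n ∈ Ioc a b, e (0 * (n : ℝ)) * nt η n := by
      refine sum_congr rfl fun n hn => ?_
      rw [er_nt η n (by have := (mem_Ioc.1 hn).1; omega), zero_mul]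
      have : e 0 = 1 := by
        unfold e
        simp
      rw [this, one_mul]
    rw [h4]
    refine h3.trans ?_
    have h5 : (a : ℝ) / √|η| ≤ √|η| := by
      rw [div_le_iff₀ (Real.sqrt_pos.2 hη), Real.mul_self_sqrt hη.le]
      exact h
    refine mul_le_mul_of_nonneg_right ?_ (by linarith)
    nlinarith

/-- several blocks -/
theorem blocks (k : ℕ) : ∃ C : ℝ, 1 ≤ C ∧ ∀ (a b : ℕ) (η : ℝ), 1 ≤ a → a ≤ b → b ≤ 2 ^ k * a → 1 ≤ |η| →
    ‖∑ n ∈ Ioc a b, er (-η) (Real.log n)‖ ≤ C * (a / |η| + √|η|) * (1 + Real.log a) := by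
  obtain ⟨C1, hC1, hb1⟩ := block
  induction k with
  | zero =>
    refine ⟨1, le_rfl, fun a b η ha hab hb h1 => ?_⟩
    have : b = a := by simp at hb; omega
    subst this
    have haR : (1 : ℝ) ≤ b := by exact_mod_cast ha
    have hla : 0 ≤ Real.log b := Real.log_nonneg haR
    simp only [Ioc_self, sum_empty, norm_zero]
    positivity
  | succ k ih =>
    obtain ⟨C, hC, hk⟩ := ih
    refine ⟨C1 + 4 * C, by linarith, fun a b η ha hab hb h1 => ?_⟩
    have haR : (1 : ℝ) ≤ a := by exact_mod_cast ha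
    have hla : 0 ≤ Real.log a := Real.log_nonneg haR
    have hη : 0 < |η| := by linarith
    have hs : 0 ≤ √|η| := Real.sqrt_nonneg _
    have hd : 0 ≤ (a : ℝ) / |η| := by positivity
    have hX : 0 ≤ (a / |η| + √|η|) * (1 + Real.log a) := by positivity
    rcases le_total b (2 * a) with h | h
    · refine (hb1 a b η ha hab h h1).trans ?_
      rw [mul_assoc, mul_assoc]
      exact mul_le_mul_of_nonneg_right (by linarith) hX
    · rw [← Finset.sum_Ioc_consecutive _ (show a ≤ 2 * a by omega) h]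
      refine (norm_add_le _ _).trans ?_
      have h2 := hb1 a (2 * a) η ha (by omega) le_rfl h1
      have h3 := hk (2 * a) b η (by omega) h (by rw [pow_succ] at hb; linarith) h1
      have h4 : C * (((2 * a : ℕ) : ℝ) / |η| + √|η|) * (1 + Real.log ((2 * a : ℕ) : ℝ)) ≤
          4 * C * ((a / |η| + √|η|) * (1 + Real.log a)) := by
        have h5 : ((2 * a : ℕ) : ℝ) / |η| + √|η| ≤ 2 * (a / |η| + √|η|) := by
          push_cast
          rw [mul_div_assoc]
          linarith
        have h6 : 1 + Real.log ((2 * a : ℕ) : ℝ) ≤ 2 * (1 + Real.log a) := by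
          push_cast
          rw [Real.log_mul (by norm_num) (by linarith)]
          have := Real.log_two_lt_d9
          linarith
        calc _ ≤ C * (2 * (a / |η| + √|η|)) * (2 * (1 + Real.log a)) := by
              gcongr
          _ = _ := by ring
      calc _ ≤ C1 * (a / |η| + √|η|) * (1 + Real.log a) + 4 * C * ((a / |η| + √|η|) * (1 + Real.log a)) :=
            add_le_add h2 (h3.trans h4)
        _ = _ := by ring

/-- partial summation with increasing weights -/
theorem parts (f : ℕ → ℂ) (w : ℕ → ℝ) (N N' : ℕ) (B : ℝ) (hN : N ≤ N') (hw : ∀ n, N ≤ n → 0 ≤ w n ∧ w n ≤ w (n + 1))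
    (hB : ∀ m, N ≤ m → m ≤ N' → ‖∑ n ∈ Ioc N m, f n‖ ≤ B) :
    ‖∑ n ∈ Ioc N N', (w n : ℂ) * f n‖ ≤ 2 * w N' * B := by
  have key : ∀ m, N ≤ m → ∑ n ∈ Ioc N m, (w n : ℂ) * f n = (w m : ℂ) * ∑ n ∈ Ioc N m, f n -
      ∑ k ∈ Ico N m, ((w (k + 1) : ℂ) - w k) * ∑ n ∈ Ioc N k, f n := by
    intro m hm
    induction m, hm using Nat.le_induction with
    | base => simp
    | succ m hm ih =>
      rw [← Finset.insert_Ioc_right_eq_Ioc_add_one hm, sum_insert (by simp), sum_insert (by simp), ih,
        Finset.sum_Ico_succ_top hm]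
      push_cast
      ring
  rw [key N' hN]
  have hB0 : 0 ≤ B := (norm_nonneg _).trans (hB N le_rfl hN)
  have h1 : ‖(w N' : ℂ) * ∑ n ∈ Ioc N N', f n‖ ≤ w N' * B := by
    rw [norm_mul, Complex.norm_real, Real.norm_eq_abs, abs_of_nonneg (hw N' hN).1]
    exact mul_le_mul_of_nonneg_left (hB N' hN le_rfl) (hw N' hN).1
  have h2 : ‖∑ k ∈ Ico N N', ((w (k + 1) : ℂ) - w k) * ∑ n ∈ Ioc N k, f n‖ ≤ (w N' - w N) * B := by
    refine (norm_sum_le _ _).trans ?_
    calc _ ≤ ∑ k ∈ Ico N N', (w (k + 1) - w k) * B := by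
          refine sum_le_sum fun k hk => ?_
          rw [mem_Ico] at hk
          rw [norm_mul, ← Complex.ofReal_sub, Complex.norm_real, Real.norm_eq_abs,
            abs_of_nonneg (by linarith [(hw k hk.1).2])]
          exact mul_le_mul_of_nonneg_left (hB k hk.1 (by omega)) (by linarith [(hw k hk.1).2])
      _ = _ := by
          rw [← sum_mul, Finset.sum_Ico_sub _ hN]
  refine (norm_sub_le _ _).trans ?_
  have h3 := (hw N le_rfl).1
  nlinarith

theorem s_ZS : S_ZS := by
  obtain ⟨C, hC, hk⟩ := blocks 5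
  refine ⟨8 * C, by linarith, fun N N' η hN hNN hN' h1 => ?_⟩
  have hNR : (1 : ℝ) ≤ N := by exact_mod_cast hN
  have hlN : 0 ≤ Real.log N := Real.log_nonneg hNR
  have hη : 0 < |η| := by linarith
  have hs : 0 ≤ √|η| := Real.sqrt_nonneg _
  have hd : 0 ≤ (N : ℝ) / |η| := by positivity
  obtain ⟨B, hB⟩ : ∃ B : ℝ, B = C * (N / |η| + √|η|) * (1 + Real.log N) := ⟨_, rfl⟩
  have hB0 : 0 ≤ B := by rw [hB]; positivity
  have hm : ∀ m, N ≤ m → m ≤ N' → ‖∑ n ∈ Ioc N m, er (-η) (Real.log n)‖ ≤ B := by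
    intro m h2 h3
    rw [hB]
    exact hk N m η hN h2 (by norm_num; omega) h1
  constructor
  · unfold DS
    have h2 := hm N' hNN le_rfl
    simp only [one_mul]
    refine h2.trans ?_
    rw [hB]
    have : 0 ≤ C * (N / |η| + √|η|) * (1 + Real.log N) := by positivity
    nlinarith
  · unfold DS
    have h2 := parts (fun n => er (-η) (Real.log n)) (fun n => Real.log n) N N' B hNN (by
      intro n hn
      have hnR : (1 : ℝ) ≤ n := by exact_mod_cast hN.trans hn
      refine ⟨Real.log_nonneg hnR, Real.log_le_log (by linarith) ?_⟩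
      push_cast
      linarith) hm
    refine h2.trans ?_
    have h3 : Real.log N' ≤ 4 * (1 + Real.log N) := by
      have h4 : (N' : ℝ) ≤ 32 * N := by
        have : N' ≤ 32 * N := by omega
        exact_mod_cast this
      have h5 : Real.log N' ≤ Real.log (32 * N) := Real.log_le_log (by
        have : 1 ≤ N' := by omega
        have : (1 : ℝ) ≤ N' := by exact_mod_cast this
        linarith) h4
      have h6 : Real.log 32 < 4 := by
        have h7 : (32 : ℝ) = 2 ^ 5 := by norm_num
        rw [h7, Real.log_pow]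
        have := Real.log_two_lt_d9
        norm_num
        linarith
      rw [Real.log_mul (by norm_num) (by linarith)] at h5
      linarith
    have h4 : 2 * Real.log N' * B ≤ 2 * (4 * (1 + Real.log N)) * B := by
      gcongr
    refine h4.trans (le_of_eq ?_)
    rw [hB]
    ring

end Pool.Agent.L7h58.MW
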